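import Mathlib
import Pool.Agent.helper68.S2.Curve

/-!
# The full derivative of the homogeneous extension through the rotation fields

`fderiv ℝ (ext f) x = ∑ j, ext (X j f) x • Cj j x`.
-/

set_option autoImplicit false

open MeasureTheory Metric Set Filter
open scoped ContDiff Topology

namespace Pool.Agent.helper68.S2

/-- coefficient of the `j`-th rotation field in the tangential part of a vector, at `x` -/
noncomputable def Cj (j : Fin 3) (x : E3) : E3 →L[ℝ] ℝ := (‖x‖ ^ 2)⁻¹ • innerSL ℝ (cr j x)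

theorem Cj_apply (j : Fin 3) (x v : E3) : Cj j x v = (‖x‖ ^ 2)⁻¹ * inner ℝ (cr j x) v := rfl

theorem contDiffOn_Cj (j : Fin 3) : ContDiffOn ℝ ∞ (Cj j) {x : E3 | x ≠ 0} := by
  have h1 : ContDiffOn ℝ ∞ (fun x : E3 => (‖x‖ ^ 2)⁻¹) {x : E3 | x ≠ 0} := by
    apply ContDiffOn.inv
    · exact (contDiff_norm_sq ℝ).contDiffOn
    · intro x hx
      exact pow_ne_zero 2 (norm_ne_zero_iff.mpr hx)
  have h2 : ContDiffOn ℝ ∞ (fun x : E3 => innerSL ℝ (cr j x)) {x : E3 | x ≠ 0} :=
    ((innerSL ℝ (E := E3)).contDiff.comp (cr j).contDiff).contDiffOn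
  exact h1.smul h2

theorem fderiv_ext_radial (f : SS) {x : E3} (hx : x ≠ 0) : fderiv ℝ (ext f) x x = 0 := by
  have hpos : 0 < ‖x‖ := norm_pos_iff.mpr hx
  have h := fderiv_ext_smul f hpos ((proj x : Sph) : E3) ((proj x : Sph) : E3)
  rw [fderiv_ext_self, proj_coe hx, smul_smul, mul_inv_cancel₀ hpos.ne', one_smul] at h
  exact h

/-- decomposition of a vector into its radial and rotational parts -/
theorem decomp {x : E3} (hx : x ≠ 0) (v : E3) :
    v = ((‖x‖ ^ 2)⁻¹ * inner ℝ x v) • x + ∑ j, Cj j x v • cr j x := by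
  have hn : ‖x‖ ^ 2 ≠ 0 := pow_ne_zero 2 (norm_ne_zero_iff.mpr hx)
  have hx2 : ‖x‖ ^ 2 = x 0 ^ 2 + x 1 ^ 2 + x 2 ^ 2 := by
    rw [EuclideanSpace.norm_eq, Real.sq_sqrt (by positivity), Fin.sum_univ_three]
    simp only [Real.norm_eq_abs, sq_abs]
  have key : ‖x‖ ^ 2 • v = inner ℝ x v • x + ∑ j, (inner ℝ (cr j x) v : ℝ) • cr j x := by
    rw [hx2]
    simp only [Fin.sum_univ_three, PiLp.inner_apply, cr0, cr1, cr2]
    ext j
    fin_cases j <;> simp <;> ring
  have h2 : v = (‖x‖ ^ 2)⁻¹ • (‖x‖ ^ 2 • v) := by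
    rw [smul_smul, inv_mul_cancel₀ hn, one_smul]
  conv_lhs => rw [h2, key]
  rw [smul_add, smul_smul, Finset.smul_sum]
  congr 1
  apply Finset.sum_congr rfl
  intro j _
  rw [smul_smul, Cj_apply]

/-- **The key formula.** -/
theorem fderiv_ext_eq (f : SS) {x : E3} (hx : x ≠ 0) :
    fderiv ℝ (ext f) x = ∑ j, ext (X j f) x • Cj j x := by
  ext v
  conv_lhs => rw [decomp hx v]
  rw [map_add, map_smul, fderiv_ext_radial f hx, smul_zero, zero_add, map_sum]
  simp only [map_smul, sum_apply, smul_apply, smul_eq_mul]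
  apply Finset.sum_congr rfl
  intro j _
  rw [ext_X j f hx, mul_comm]

theorem hasFDerivAt_ext_eq (f : SS) {x : E3} (hx : x ≠ 0) :
    HasFDerivAt (ext f) (∑ j, ext (X j f) x • Cj j x) x := by
  rw [← fderiv_ext_eq f hx]
  exact (differentiableAt_ext f hx).hasFDerivAt

/-- criterion for membership in `SS` : a family indexed by words, closed under derivatives -/
theorem mem_SS_of_family {h : List (Fin 3) → Sph → ℝ}
    (hd : ∀ w (x : E3), x ≠ 0 → HasFDerivAt (ext (h w)) (∑ j, ext (h (w ++ [j])) x • Cj j x) x)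
    (w : List (Fin 3)) : h w ∈ SS := by
  rw [mem_SS]
  have key : ∀ (n : ℕ) (w : List (Fin 3)), ContDiffOn ℝ n (ext (h w)) {x : E3 | x ≠ 0} := by
    intro n
    induction n with
    | zero =>
      intro w
      rw [Nat.cast_zero, contDiffOn_zero]
      exact fun x hx => (hd w x hx).continuousAt.continuousWithinAt
    | succ n ih =>
      intro w
      rw [Nat.cast_succ, contDiffOn_succ_iff_fderiv_of_isOpen isOpen_Om]
      refine ⟨fun x hx => (hd w x hx).differentiableAt.differentiableWithinAt, ?_, ?_⟩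
      · intro hω
        exact absurd hω (by simp)
      · have h1 : ContDiffOn ℝ n (fun x => ∑ j, ext (h (w ++ [j])) x • Cj j x)
            {x : E3 | x ≠ 0} := by
          apply ContDiffOn.sum
          intro j _
          exact (ih (w ++ [j])).smul ((contDiffOn_Cj j).of_le (by exact_mod_cast le_top))
        exact h1.congr fun x hx => (hd w x hx).fderiv
  rw [contDiffOn_infty]
  exact fun n => key n w

end Pool.Agent.helper68.S2
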