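import Mathlib
import Pool.Agent.helper73.S2.Frame

/-!
# Ultrafilter limits of bounded families in `SS`
-/

set_option autoImplicit false

open MeasureTheory Metric Set Filter
open scoped ContDiff Topology

namespace Pool.Agent.helper68.S2

namespace SpecL

theorem norm_Cj_le (j : Fin 3) (p : Sph) : ‖Cj j (p : E3)‖ ≤ ‖cr j‖ := by
  unfold Cj
  rw [norm_sph p, one_pow, inv_one, one_smul, innerSL_apply_norm]
  have := (cr j).le_opNorm (p : E3)
  rwa [norm_sph p, mul_one] at this

theorem norm_Cj_le' (j : Fin 3) {x : E3} (hx : x ≠ 0) : ‖Cj j x‖ ≤ ‖cr j‖ * ‖x‖⁻¹ := by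
  have hpos : 0 < ‖x‖ := norm_pos_iff.mpr hx
  unfold Cj
  rw [norm_smul, innerSL_apply_norm, Real.norm_eq_abs, abs_of_nonneg (by positivity)]
  have := (cr j).le_opNorm x
  calc (‖x‖ ^ 2)⁻¹ * ‖cr j x‖ ≤ (‖x‖ ^ 2)⁻¹ * (‖cr j‖ * ‖x‖) := by gcongr
    _ = ‖cr j‖ * ‖x‖⁻¹ := by field_simp

/-- local Lipschitz bound -/
theorem lip {f : SS} {C : ℝ} (h : ∀ j p, |X j f p| ≤ C) {p q : Sph} (hpq : dist p q < 1 / 2) :
    |f q - f p| ≤ (2 * ∑ j, ‖cr j‖) * C * dist p q := by
  have hC : 0 ≤ C := (abs_nonneg _).trans (h 0 p)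
  have h1 : ∀ x ∈ ball (p : E3) (1 / 2), 1 / 2 < ‖x‖ := by
    intro x hx
    rw [mem_ball, dist_eq_norm] at hx
    have h2 : ‖(p : E3)‖ ≤ ‖x‖ + ‖x - p‖ := by
      have := norm_sub_norm_le (p : E3) (-(x - p))
      have h3 := norm_add_le x (-(x - (p : E3)))
      rw [norm_neg] at h3
      have h4 : x + -(x - (p : E3)) = p := by abel
      rwa [h4] at h3
    rw [norm_sph p] at h2
    linarith
  have h0 : ∀ x ∈ ball (p : E3) (1 / 2), x ≠ 0 := by
    intro x hx hx0
    have := h1 x hx
    rw [hx0, norm_zero] at this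
    linarith
  have hb : ∀ x ∈ ball (p : E3) (1 / 2), ‖fderiv ℝ (ext f) x‖ ≤ (2 * ∑ j, ‖cr j‖) * C := by
    intro x hx
    rw [fderiv_ext_eq f (h0 x hx)]
    refine (norm_sum_le _ _).trans ?_
    rw [Finset.mul_sum, Finset.sum_mul]
    apply Finset.sum_le_sum
    intro j _
    rw [norm_smul, Real.norm_eq_abs]
    have h2 : |ext (X j f) x| ≤ C := h j (proj x)
    have h3 := norm_Cj_le' j (h0 x hx)
    have h4 : ‖x‖⁻¹ ≤ 2 := by
      rw [inv_le_comm₀ (by linarith [h1 x hx]) (by norm_num)]
      linarith [h1 x hx]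
    calc |ext (X j f) x| * ‖Cj j x‖ ≤ C * (‖cr j‖ * ‖x‖⁻¹) := by gcongr
      _ ≤ C * (‖cr j‖ * 2) := by gcongr
      _ = 2 * ‖cr j‖ * C := by ring
  have key := (convex_ball (p : E3) (1 / 2)).norm_image_sub_le_of_norm_fderiv_le (𝕜 := ℝ)
    (f := ext f) (fun x hx => differentiableAt_ext f (h0 x hx)) hb
    (x := p) (y := q) (mem_ball_self (by norm_num)) (by
      rw [mem_ball, dist_comm]
      exact hpq)
  rw [ext_sph, ext_sph, Real.norm_eq_abs] at key
  rw [dist_comm, Subtype.dist_eq, dist_eq_norm]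
  exact key

/-- pointwise convergence of a locally uniformly Lipschitz family is uniform -/
theorem unif_of_pointwise {ι : Type*} {U : Filter ι} [U.NeBot] {F : ι → Sph → ℝ} {g : Sph → ℝ}
    {K : ℝ} (hK : ∀ i p q, dist p q < 1 / 2 → |F i q - F i p| ≤ K * dist p q)
    (hg : ∀ p, Tendsto (fun i => F i p) U (𝓝 (g p))) : TendstoUniformly F g U := by
  have hgK : ∀ p q, dist p q < 1 / 2 → |g q - g p| ≤ K * dist p q := by
    intro p q hpq
    exact le_of_tendsto ((hg q).sub (hg p)).abs (Eventually.of_forall fun i => hK i p q hpq)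
  rw [Metric.tendstoUniformly_iff]
  intro ε hε
  -- a radius
  obtain ⟨r, hr, hr2, hrK⟩ : ∃ r : ℝ, 0 < r ∧ r < 1 / 2 ∧ |K| * r < ε / 3 := by
    refine ⟨min (1 / 4) (ε / (4 * (|K| + 1))), ?_, ?_, ?_⟩
    · exact lt_min (by norm_num) (by positivity)
    · exact lt_of_le_of_lt (min_le_left _ _) (by norm_num)
    · have h1 : |K| * min (1 / 4) (ε / (4 * (|K| + 1))) ≤ |K| * (ε / (4 * (|K| + 1))) :=
        mul_le_mul_of_nonneg_left (min_le_right _ _) (abs_nonneg K)
      have h2 : |K| * (ε / (4 * (|K| + 1))) ≤ ε / 4 := by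
        have h3 : |K| * (ε / (4 * (|K| + 1))) = (ε / 4) * (|K| / (|K| + 1)) := by
          field_simp
        rw [h3]
        have h4 : |K| / (|K| + 1) ≤ 1 := by
          rw [div_le_one (by positivity)]
          linarith
        calc ε / 4 * (|K| / (|K| + 1)) ≤ ε / 4 * 1 := by gcongr
          _ = ε / 4 := mul_one _
      linarith
  obtain ⟨t, -, ht, hcov⟩ := (isCompact_univ (X := Sph)).finite_cover_balls hr
  have hev : ∀ᶠ i in U, ∀ p ∈ t, dist (F i p) (g p) < ε / 3 := by
    rw [eventually_all_finite ht]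
    intro p _
    exact Metric.tendsto_nhds.1 (hg p) (ε / 3) (by positivity)
  filter_upwards [hev] with i hi q
  have hq : q ∈ ⋃ x ∈ t, ball x r := hcov (mem_univ q)
  simp only [mem_iUnion, exists_prop, mem_ball] at hq
  obtain ⟨p, hp, hqp⟩ := hq
  have hqp' : dist p q < 1 / 2 := by
    rw [dist_comm]
    linarith
  have hbd : K * dist p q < ε / 3 := by
    rw [dist_comm]
    calc K * dist q p ≤ |K| * dist q p :=
          mul_le_mul_of_nonneg_right (le_abs_self K) dist_nonneg
      _ ≤ |K| * r := mul_le_mul_of_nonneg_left hqp.le (abs_nonneg K)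
      _ < ε / 3 := hrK
  have h1 := hgK p q hqp'
  have h2 := hK i p q hqp'
  have h3 := hi p hp
  rw [Real.dist_eq] at h3 ⊢
  have e : g q - F i q = (g q - g p) + (-(F i p - g p)) + (-(F i q - F i p)) := by ring
  rw [e]
  calc |(g q - g p) + (-(F i p - g p)) + (-(F i q - F i p))|
      ≤ |g q - g p| + |-(F i p - g p)| + |-(F i q - F i p)| := by
        refine (abs_add_le _ _).trans ?_
        gcongr
        exact abs_add_le _ _
    _ = |g q - g p| + |F i p - g p| + |F i q - F i p| := by rw [abs_neg, abs_neg]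
    _ < ε := by linarith

/-- limits of bounded sequences along an ultrafilter -/
theorem ultralimit {ι : Type*} (U : Ultrafilter ι) (f : ι → SS)
    (hf : ∀ w, ∃ C, ∀ i p, |Xw w (f i) p| ≤ C) :
    ∃ g : SS, ∀ w, TendstoUniformly (fun i p => Xw w (f i) p) (Xw w g) (U : Filter ι) := by
  choose C hC using hf
  have hlim : ∀ (w : List (Fin 3)) (p : Sph), ∃ l : ℝ,
      Tendsto (fun i => Xw w (f i) p) (U : Filter ι) (𝓝 l) := by
    intro w p
    have hmem : ∀ᶠ i in (U : Filter ι), Xw w (f i) p ∈ Icc (-C w) (C w) :=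
      Eventually.of_forall fun i => abs_le.mp (hC w i p)
    obtain ⟨l, -, hl⟩ := (isCompact_Icc (a := -C w) (b := C w)).ultrafilter_le_nhds
      (U.map fun i => Xw w (f i) p) (by
        rw [Ultrafilter.coe_map, le_principal_iff, mem_map]
        exact hmem)
    exact ⟨l, hl⟩
  choose h hh using hlim
  have hunif : ∀ w, TendstoUniformly (fun i p => Xw w (f i) p) (h w) (U : Filter ι) := by
    intro w
    obtain ⟨D, hD⟩ : ∃ D, ∀ (j : Fin 3) i p, |Xw (w ++ [j]) (f i) p| ≤ D := by
      refine ⟨max (C (w ++ [0])) (max (C (w ++ [1])) (C (w ++ [2]))), ?_⟩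
      intro j i p
      fin_cases j
      · exact (hC _ i p).trans (le_max_left _ _)
      · exact (hC _ i p).trans ((le_max_left _ _).trans (le_max_right _ _))
      · exact (hC _ i p).trans ((le_max_right _ _).trans (le_max_right _ _))
    refine unif_of_pointwise (K := (2 * ∑ j, ‖cr j‖) * D) ?_ (hh w)
    intro i p q hpq
    refine lip (f := Xw w (f i)) (C := D) ?_ hpq
    intro j p
    have := hD j i p
    rwa [Xw_append] at this
  have hder : ∀ w (x : E3), x ≠ 0 →
      HasFDerivAt (ext (h w)) (∑ j, ext (h (w ++ [j])) x • Cj j x) x := by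
    intro w x hx
    refine hasFDerivAt_of_tendstoLocallyUniformlyOn (l := (U : Filter ι))
      (f := fun i => ext (Xw w (f i)))
      (f' := fun i y => ∑ j, ext (Xw (w ++ [j]) (f i)) y • Cj j y)
      (g' := fun y => ∑ j, ext (h (w ++ [j])) y • Cj j y) isOpen_Om ?_ ?_ ?_ hx
    · rw [Metric.tendstoLocallyUniformlyOn_iff]
      intro ε hε y hy
      obtain ⟨M, hM0, hM⟩ : ∃ M : ℝ, 0 < M ∧ ∀ j, ‖Cj j y‖ < M := by
        refine ⟨∑ j, ‖Cj j y‖ + 1, by positivity, fun j => ?_⟩
        have := Finset.single_le_sum (f := fun j => ‖Cj j y‖) (fun j _ => norm_nonneg _)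
          (Finset.mem_univ j)
        linarith
      have hev : ∀ᶠ z in 𝓝[{x : E3 | x ≠ 0}] y, ∀ j, ‖Cj j z‖ < M := by
        rw [eventually_all]
        intro j
        have hc : ContinuousWithinAt (fun z => ‖Cj j z‖) {x : E3 | x ≠ 0} y :=
          ((contDiffOn_Cj j).continuousOn y hy).norm
        exact hc.eventually (gt_mem_nhds (hM j))
      refine ⟨_, hev, ?_⟩
      have hconv : ∀ᶠ i in (U : Filter ι), ∀ j, ∀ p,
          dist (h (w ++ [j]) p) (Xw (w ++ [j]) (f i) p) < ε / (4 * M) := by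
        rw [eventually_all]
        intro j
        exact Metric.tendstoUniformly_iff.1 (hunif (w ++ [j])) _ (by positivity)
      filter_upwards [hconv] with i hi z hz
      rw [dist_eq_norm, ← Finset.sum_sub_distrib]
      refine (norm_sum_le _ _).trans_lt ?_
      have : ∀ j ∈ Finset.univ, ‖ext (h (w ++ [j])) z • Cj j z
          - ext (Xw (w ++ [j]) (f i)) z • Cj j z‖ ≤ ε / 4 := by
        intro j _
        have e : ext (h (w ++ [j])) z • Cj j z - ext (Xw (w ++ [j]) (f i)) z • Cj j z
            = (ext (h (w ++ [j])) z - ext (Xw (w ++ [j]) (f i)) z) • Cj j z :=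
          (sub_smul _ _ _).symm
        rw [e, norm_smul]
        have h1 := (hi j (proj z)).le
        rw [Real.dist_eq] at h1
        have h2 : ‖Cj j z‖ ≤ M := (hz j).le
        calc ‖ext (h (w ++ [j])) z - ext (Xw (w ++ [j]) (f i)) z‖ * ‖Cj j z‖
            ≤ (ε / (4 * M)) * M := by
              rw [Real.norm_eq_abs]
              gcongr
              exact h1
          _ = ε / 4 := by field_simp
      refine (Finset.sum_le_sum this).trans_lt ?_
      rw [Finset.sum_const, Finset.card_univ, Fintype.card_fin, nsmul_eq_mul]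
      push_cast
      linarith
    · intro i y hy
      have := hasFDerivAt_ext_eq (Xw w (f i)) hy
      simp only [Xw_append]
      exact this
    · intro y _
      exact hh w (proj y)
  let H : List (Fin 3) → SS := fun w => ⟨h w, mem_SS_of_family hder w⟩
  have hX : ∀ w j, X j (H w) = H (w ++ [j]) := by
    intro w j
    apply ssext
    intro p
    have h1 : X j (H w) p = ∑ k, h (w ++ [k]) p * Cj k (p : E3) (cr j p) := by
      rw [X_apply]
      have h2 : fderiv ℝ (ext (H w)) (p : E3) = ∑ k, ext (h (w ++ [k])) (p : E3) • Cj k (p : E3) :=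
        (hder w p (sph_ne_zero p)).fderiv
      rw [h2]
      simp only [sum_apply, smul_apply, smul_eq_mul, ext_sph]
    have h2 : ∀ i, X j (Xw w (f i)) p
        = ∑ k, Xw (w ++ [k]) (f i) p * Cj k (p : E3) (cr j p) := by
      intro i
      rw [X_apply, fderiv_ext_eq (Xw w (f i)) (sph_ne_zero p)]
      simp only [sum_apply, smul_apply, smul_eq_mul, ext_sph, Xw_append]
      rfl
    have h3 : Tendsto (fun i => ∑ k, Xw (w ++ [k]) (f i) p * Cj k (p : E3) (cr j p))
        (U : Filter ι) (𝓝 (∑ k, h (w ++ [k]) p * Cj k (p : E3) (cr j p))) :=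
      tendsto_finsetSum _ fun k _ => (hh (w ++ [k]) p).mul_const _
    have h4 : Tendsto (fun i => X j (Xw w (f i)) p) (U : Filter ι) (𝓝 (h (w ++ [j]) p)) := by
      have := hh (w ++ [j]) p
      simp only [Xw_append] at this
      exact this
    have h5 : (fun i => X j (Xw w (f i)) p)
        = fun i => ∑ k, Xw (w ++ [k]) (f i) p * Cj k (p : E3) (cr j p) := funext h2
    rw [← h5] at h3
    rw [h1]
    exact tendsto_nhds_unique h3 h4
  have hXw : ∀ w w', Xw w (H w') = H (w' ++ w) := by
    intro w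
    induction w with
    | nil =>
      intro w'
      rw [Xw_nil, List.append_nil]
    | cons i w ih =>
      intro w'
      rw [Xw_cons, hX, ih, List.append_assoc, List.singleton_append]
  refine ⟨H [], fun w => ?_⟩
  rw [hXw, List.nil_append]
  exact hunif w

end SpecL

end Pool.Agent.helper68.S2
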