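import Mathlib
import Pool.Agent.helper73.S2.Frame

/-!
# Bounds for iterated derivatives of the homogeneous extension by words
-/

set_option autoImplicit false

open MeasureTheory Metric Set Filter
open scoped ContDiff Topology

namespace Pool.Agent.helper68.S2

namespace SpecL

/-- bound of the derivatives of `Cj` on the sphere -/
theorem exists_bound_Cj (k : ℕ) (j : Fin 3) : ∃ B, 0 ≤ B ∧ ∀ p : Sph,
    ‖iteratedFDerivWithin ℝ k (Cj j) {x : E3 | x ≠ 0} p‖ ≤ B := by
  have h1 : ContinuousOn (iteratedFDerivWithin ℝ k (Cj j) {x : E3 | x ≠ 0}) {x : E3 | x ≠ 0} :=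
    (contDiffOn_Cj j).continuousOn_iteratedFDerivWithin (by exact_mod_cast le_top)
      isOpen_Om.uniqueDiffOn
  have h2 : ContinuousOn (iteratedFDerivWithin ℝ k (Cj j) {x : E3 | x ≠ 0}) (sphere (0 : E3) 1) :=
    h1.mono fun x hx => by
      exact sph_ne_zero ⟨x, hx⟩
  obtain ⟨B, hB⟩ := (isCompact_sphere (0 : E3) 1).exists_bound_of_continuousOn h2
  exact ⟨|B|, abs_nonneg B, fun p => (hB p p.2).trans (le_abs_self B)⟩

theorem iterWithin_le (k : ℕ) : ∃ C, 0 ≤ C ∧ ∀ (f : SS) (δ : ℝ),
    (∀ w : List (Fin 3), w.length ≤ k → ∀ q, |Xw w f q| ≤ δ) →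
    ∀ p : Sph, ‖iteratedFDerivWithin ℝ k (ext f) {x : E3 | x ≠ 0} p‖ ≤ C * δ := by
  induction k using Nat.strong_induction_on with
  | _ k ih =>
    cases k with
    | zero =>
      refine ⟨1, zero_le_one, fun f δ h p => ?_⟩
      rw [norm_iteratedFDerivWithin_zero, ext_sph, Real.norm_eq_abs, one_mul]
      exact h [] (by simp) p
    | succ k =>
      have ih' : ∀ i ∈ Finset.range (k + 1), ∃ C, 0 ≤ C ∧ ∀ (f : SS) (δ : ℝ),
          (∀ w : List (Fin 3), w.length ≤ i → ∀ q, |Xw w f q| ≤ δ) →
          ∀ p : Sph, ‖iteratedFDerivWithin ℝ i (ext f) {x : E3 | x ≠ 0} p‖ ≤ C * δ := fun i hi =>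
        ih i (Finset.mem_range.mp hi)
      choose! A hA0 hA using ih'
      choose B hB0 hB using fun i => exists_bound_Cj i
      refine ⟨∑ j : Fin 3, ∑ i ∈ Finset.range (k + 1), (k.choose i : ℝ) * A i * B (k - i) j,
        ?_, fun f δ h p => ?_⟩
      · apply Finset.sum_nonneg
        intro j _
        apply Finset.sum_nonneg
        intro i hi
        have := hA0 i hi
        have := hB0 (k - i) j
        positivity
      · have hU : UniqueDiffOn ℝ {x : E3 | x ≠ 0} := isOpen_Om.uniqueDiffOn
        have hp : (p : E3) ∈ {x : E3 | x ≠ 0} := sph_ne_zero p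
        rw [← norm_iteratedFDerivWithin_fderivWithin hU hp]
        have hcongr : EqOn (fderivWithin ℝ (ext f) {x : E3 | x ≠ 0})
            (fun x => ∑ j, ext (X j f) x • Cj j x) {x : E3 | x ≠ 0} := by
          intro x hx
          rw [fderivWithin_of_isOpen isOpen_Om hx]
          exact fderiv_ext_eq f hx
        rw [iteratedFDerivWithin_congr hcongr hp k]
        have hsum : iteratedFDerivWithin ℝ k (fun x => ∑ j, ext (X j f) x • Cj j x)
            {x : E3 | x ≠ 0} p = ∑ j, iteratedFDerivWithin ℝ k (fun x => ext (X j f) x • Cj j x)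
            {x : E3 | x ≠ 0} p := by
          refine iteratedFDerivWithin_fun_sum_apply hU hp (fun j _ => ?_)
          have h1 : ContDiffOn ℝ ∞ (fun x => ext (X j f) x • Cj j x) {x : E3 | x ≠ 0} :=
            (contDiffOn_ext (X j f)).smul (contDiffOn_Cj j)
          exact (h1.of_le (by exact_mod_cast le_top)) p hp
        rw [hsum]
        refine (norm_sum_le _ _).trans ?_
        rw [Finset.sum_mul]
        apply Finset.sum_le_sum
        intro j _
        refine (norm_iteratedFDerivWithin_smul_le (contDiffOn_ext (X j f)) (contDiffOn_Cj j) hU hp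
          (n := k) (by exact_mod_cast le_top)).trans ?_
        rw [Finset.sum_mul]
        apply Finset.sum_le_sum
        intro i hi
        have hik : i ≤ k := Nat.lt_succ_iff.mp (Finset.mem_range.mp hi)
        have h1 := hA i hi (X j f) δ (fun w hw q => by
          rw [← Xw_cons]
          exact h (j :: w) (by simp; omega) q) p
        have h2 := hB (k - i) j p
        calc (k.choose i : ℝ) * ‖iteratedFDerivWithin ℝ i (ext (X j f)) {x : E3 | x ≠ 0} p‖
              * ‖iteratedFDerivWithin ℝ (k - i) (Cj j) {x : E3 | x ≠ 0} p‖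
            ≤ (k.choose i : ℝ) * (A i * δ) * B (k - i) j := by
              gcongr
              have h3 := (norm_nonneg _).trans h1
              positivity
          _ = (k.choose i : ℝ) * A i * B (k - i) j * δ := by ring

theorem iteratedFDeriv_le (k : ℕ) : ∃ C, ∀ (f : SS) (δ : ℝ),
    (∀ w : List (Fin 3), w.length ≤ k → ∀ q, |Xw w f q| ≤ δ) →
    ∀ p : Sph, ‖iteratedFDeriv ℝ k (ext f) p‖ ≤ C * δ := by
  obtain ⟨C, -, hC⟩ := iterWithin_le k
  refine ⟨C, fun f δ h p => ?_⟩
  rw [← iteratedFDerivWithin_of_isOpen k isOpen_Om (sph_ne_zero p)]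
  exact hC f δ h p

end SpecL

end Pool.Agent.helper68.S2
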