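import Mathlib
import Pool.Agent.helper73.S2.Frame

/-!
# From a jointly smooth function to a curve in `SS`
-/

set_option autoImplicit false

open MeasureTheory Metric Set Filter
open scoped ContDiff Topology

namespace Pool.Agent.helper68.S2

namespace SpecL

variable {J : Set ℝ}

/-- slices in space -/
theorem slice_hasFDerivAt {G : ℝ × E3 → ℝ}
    (hG : ContDiffOn ℝ ∞ G (J ×ˢ {x : E3 | x ≠ 0})) {t : ℝ} (ht : t ∈ J) {x : E3} (hx : x ≠ 0) :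
    HasFDerivAt (fun y => G (t, y))
      ((fderivWithin ℝ G (J ×ˢ {x : E3 | x ≠ 0}) (t, x)).comp (ContinuousLinearMap.inr ℝ ℝ E3))
      x := by
  have hz : ((t, x) : ℝ × E3) ∈ J ×ˢ {x : E3 | x ≠ 0} := ⟨ht, hx⟩
  have h1 : HasFDerivWithinAt G (fderivWithin ℝ G (J ×ˢ {x : E3 | x ≠ 0}) (t, x))
      (J ×ˢ {x : E3 | x ≠ 0}) (t, x) :=
    ((hG.differentiableOn (by simp)) (t, x) hz).hasFDerivWithinAt
  have h2 : HasFDerivWithinAt (fun y : E3 => ((t, y) : ℝ × E3)) (ContinuousLinearMap.inr ℝ ℝ E3)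
      {x : E3 | x ≠ 0} x := (hasFDerivAt_prodMk_right t x).hasFDerivWithinAt
  have h3 := HasFDerivWithinAt.comp (g := G) (f := fun y : E3 => ((t, y) : ℝ × E3)) x h1 h2
    (fun y hy => ⟨ht, hy⟩)
  exact h3.hasFDerivAt (isOpen_Om.mem_nhds hx)

theorem contDiffOn_slice {G : ℝ × E3 → ℝ} (hG : ContDiffOn ℝ ∞ G (J ×ˢ {x : E3 | x ≠ 0}))
    {t : ℝ} (ht : t ∈ J) : ContDiffOn ℝ ∞ (fun x => G (t, x)) {x : E3 | x ≠ 0} := by
  have h2 : ContDiffOn ℝ ∞ (fun y : E3 => ((t, y) : ℝ × E3)) {x : E3 | x ≠ 0} :=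
    (contDiff_prodMk_right t).contDiffOn
  exact hG.comp h2 fun y hy => ⟨ht, hy⟩

/-- the derivative along a rotation field of a function of `(t, x)` -/
noncomputable def Gi (J : Set ℝ) (i : Fin 3) (G : ℝ × E3 → ℝ) (z : ℝ × E3) : ℝ :=
  fderivWithin ℝ G (J ×ˢ {x : E3 | x ≠ 0}) z (0, cr i z.2)

theorem uniqueDiff_JO (hJ : UniqueDiffOn ℝ J) : UniqueDiffOn ℝ (J ×ˢ {x : E3 | x ≠ 0}) :=
  hJ.prod isOpen_Om.uniqueDiffOn

theorem contDiffOn_Gi {G : ℝ × E3 → ℝ} (hJ : UniqueDiffOn ℝ J)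
    (hG : ContDiffOn ℝ ∞ G (J ×ˢ {x : E3 | x ≠ 0})) (i : Fin 3) :
    ContDiffOn ℝ ∞ (Gi J i G) (J ×ˢ {x : E3 | x ≠ 0}) := by
  have h1 : ContDiffOn ℝ ∞ (fderivWithin ℝ G (J ×ˢ {x : E3 | x ≠ 0})) (J ×ˢ {x : E3 | x ≠ 0}) :=
    hG.fderivWithin (uniqueDiff_JO hJ) (by simp)
  have h2 : ContDiffOn ℝ ∞ (fun z : ℝ × E3 => ((0, cr i z.2) : ℝ × E3))
      (J ×ˢ {x : E3 | x ≠ 0}) :=
    (contDiff_const.prodMk ((cr i).contDiff.comp contDiff_snd)).contDiffOn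
  exact h1.clm_apply h2

theorem ext_X_eq {G : ℝ × E3 → ℝ} (hJ : UniqueDiffOn ℝ J)
    (hG : ContDiffOn ℝ ∞ G (J ×ˢ {x : E3 | x ≠ 0})) {u : ℝ → SS}
    (hu : ∀ t ∈ J, ∀ x : E3, x ≠ 0 → ext (u t) x = G (t, x)) (i : Fin 3) :
    ∀ t ∈ J, ∀ x : E3, x ≠ 0 → ext (X i (u t)) x = Gi J i G (t, x) := by
  intro t ht x hx
  rw [ext_X i (u t) hx]
  have h1 : ext (u t) =ᶠ[𝓝 x] fun y => G (t, y) := by
    filter_upwards [isOpen_Om.mem_nhds hx] with y hy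
    exact hu t ht y hy
  rw [h1.fderiv_eq, (slice_hasFDerivAt hG ht hx).fderiv]
  rfl

theorem CCn_of {n : ℕ} {G : ℝ × E3 → ℝ} (hJ : UniqueDiffOn ℝ J)
    (hG : ContDiffOn ℝ ∞ G (J ×ˢ {x : E3 | x ≠ 0})) {u : ℝ → SS}
    (hu : ∀ t ∈ J, ∀ x : E3, x ≠ 0 → ext (u t) x = G (t, x)) : CCn J n u := by
  have key : ∀ {G : ℝ × E3 → ℝ}, ContDiffOn ℝ ∞ G (J ×ˢ {x : E3 | x ≠ 0}) → ∀ {u : ℝ → SS},
      (∀ t ∈ J, ∀ x : E3, x ≠ 0 → ext (u t) x = G (t, x)) →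
      ContinuousOn (fun z : ℝ × Sph => u z.1 z.2) (J ×ˢ univ) := by
    intro G hG u hu
    have h1 : ContinuousOn (fun z : ℝ × Sph => G (z.1, (z.2 : E3))) (J ×ˢ univ) := by
      refine hG.continuousOn.comp (f := fun z : ℝ × Sph => ((z.1, (z.2 : E3)) : ℝ × E3)) ?_ ?_
      · exact (continuous_fst.prodMk (continuous_subtype_val.comp continuous_snd)).continuousOn
      · intro z hz
        exact ⟨hz.1, sph_ne_zero z.2⟩
    refine h1.congr fun z hz => ?_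
    change u z.1 z.2 = G (z.1, (z.2 : E3))
    rw [← hu z.1 hz.1 z.2 (sph_ne_zero z.2), ext_sph]
  induction n generalizing G u with
  | zero => exact key hG hu
  | succ n ih =>
    exact ⟨key hG hu, fun i => ih (contDiffOn_Gi hJ hG i) (ext_X_eq hJ hG hu i)⟩

theorem isOpen_IO : IsOpen (Ioi (0 : ℝ) ×ˢ {x : E3 | x ≠ 0}) := isOpen_Ioi.prod isOpen_Om

theorem uniqueDiff_Ioi : UniqueDiffOn ℝ (Ioi (0 : ℝ)) := isOpen_Ioi.uniqueDiffOn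

/-- the time derivative of a function of `(t, x)` -/
noncomputable def Gt (G : ℝ × E3 → ℝ) (z : ℝ × E3) : ℝ := fderiv ℝ G z (1, 0)

theorem contDiffOn_Gt {G : ℝ × E3 → ℝ} (hG : ContDiffOn ℝ ∞ G (Ioi (0 : ℝ) ×ˢ {x : E3 | x ≠ 0})) :
    ContDiffOn ℝ ∞ (Gt G) (Ioi (0 : ℝ) ×ˢ {x : E3 | x ≠ 0}) :=
  (hG.fderiv_of_isOpen isOpen_IO (by simp)).clm_apply contDiffOn_const

theorem hasDerivAt_time {G : ℝ × E3 → ℝ}
    (hG : ContDiffOn ℝ ∞ G (Ioi (0 : ℝ) ×ˢ {x : E3 | x ≠ 0})) {t : ℝ} (ht : 0 < t) {x : E3}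
    (hx : x ≠ 0) : HasDerivAt (fun s => G (s, x)) (Gt G (t, x)) t := by
  have hz : ((t, x) : ℝ × E3) ∈ Ioi (0 : ℝ) ×ˢ {x : E3 | x ≠ 0} := ⟨ht, hx⟩
  have h1 : HasFDerivAt G (fderiv ℝ G (t, x)) (t, x) :=
    (((hG (t, x) hz).contDiffAt (isOpen_IO.mem_nhds hz)).differentiableAt (by simp)).hasFDerivAt
  have h2 : HasDerivAt (fun s : ℝ => ((s, x) : ℝ × E3)) ((1, 0) : ℝ × E3) t :=
    (hasDerivAt_id t).prodMk (hasDerivAt_const t x)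
  exact HasFDerivAt.comp_hasDerivAt (l := G) (f := fun s : ℝ => ((s, x) : ℝ × E3)) t h1 h2

/-- mixed derivatives commute -/
theorem Gt_Gi {G : ℝ × E3 → ℝ} (hG : ContDiffOn ℝ ∞ G (Ioi (0 : ℝ) ×ˢ {x : E3 | x ≠ 0}))
    (i : Fin 3) {z : ℝ × E3} (hz : z ∈ Ioi (0 : ℝ) ×ˢ {x : E3 | x ≠ 0}) :
    Gi (Ioi 0) i (Gt G) z = Gt (Gi (Ioi 0) i G) z := by
  have hc : ContDiffAt ℝ ∞ G z := (hG z hz).contDiffAt (isOpen_IO.mem_nhds hz)
  have hd : DifferentiableAt ℝ (fderiv ℝ G) z :=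
    (hc.fderiv_right (m := ∞) (by simp)).differentiableAt (by simp)
  have h1 : Gi (Ioi 0) i (Gt G) z = fderiv ℝ (fderiv ℝ G) z (0, cr i z.2) (1, 0) := by
    unfold Gi
    rw [fderivWithin_of_isOpen isOpen_IO hz]
    have h2 : HasFDerivAt (Gt G) ((fderiv ℝ (fderiv ℝ G) z).flip ((1, 0) : ℝ × E3)) z := by
      have h3 := hd.hasFDerivAt.clm_apply (hasFDerivAt_const ((1, 0) : ℝ × E3) z)
      simp only [ContinuousLinearMap.comp_zero, zero_add] at h3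
      exact h3
    rw [h2.fderiv]
    rfl
  have h2 : Gt (Gi (Ioi 0) i G) z = fderiv ℝ (fderiv ℝ G) z (1, 0) (0, cr i z.2) := by
    have e : Gi (Ioi 0) i G =ᶠ[𝓝 z] fun z => fderiv ℝ G z (0, cr i z.2) := by
      filter_upwards [isOpen_IO.mem_nhds hz] with y hy
      unfold Gi
      rw [fderivWithin_of_isOpen isOpen_IO hy]
    unfold Gt
    rw [e.fderiv_eq]
    have h3 : HasFDerivAt (fun z : ℝ × E3 => ((0, cr i z.2) : ℝ × E3))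
        ((0 : ℝ × E3 →L[ℝ] ℝ).prod ((cr i).comp (ContinuousLinearMap.snd ℝ ℝ E3))) z :=
      (hasFDerivAt_const (0 : ℝ) z).prodMk ((cr i).hasFDerivAt.comp z hasFDerivAt_snd)
    have h4 := hd.hasFDerivAt.clm_apply h3
    rw [h4.fderiv]
    simp only [add_apply, ContinuousLinearMap.comp_apply, ContinuousLinearMap.flip_apply,
      ContinuousLinearMap.prod_apply, zero_apply, ContinuousLinearMap.coe_snd', map_zero]
    rw [show ((0, 0) : ℝ × E3) = 0 from rfl, map_zero, zero_add]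
  rw [h1, h2]
  have hs : IsSymmSndFDerivAt ℝ G z := by
    apply hc.isSymmSndFDerivAt
    rw [minSmoothness_of_isRCLikeNormedField]
    exact ENat.LEInfty.out
  exact hs _ _

theorem CDn_of {n : ℕ} {G : ℝ × E3 → ℝ}
    (hG : ContDiffOn ℝ ∞ G (Ioi (0 : ℝ) ×ˢ {x : E3 | x ≠ 0})) {u v : ℝ → SS}
    (hu : ∀ t ∈ Ioi (0 : ℝ), ∀ x : E3, x ≠ 0 → ext (u t) x = G (t, x))
    (hv : ∀ t ∈ Ioi (0 : ℝ), ∀ x : E3, x ≠ 0 → ext (v t) x = Gt G (t, x)) :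
    CDn (Ioi 0) n u v := by
  have key : ∀ {G : ℝ × E3 → ℝ}, ContDiffOn ℝ ∞ G (Ioi (0 : ℝ) ×ˢ {x : E3 | x ≠ 0}) →
      ∀ {u v : ℝ → SS}, (∀ t ∈ Ioi (0 : ℝ), ∀ x : E3, x ≠ 0 → ext (u t) x = G (t, x)) →
      (∀ t ∈ Ioi (0 : ℝ), ∀ x : E3, x ≠ 0 → ext (v t) x = Gt G (t, x)) →
      ∀ t ∈ Ioi (0 : ℝ), ∀ p, HasDerivWithinAt (fun s => u s p) (v t p) (Ioi 0) t := by
    intro G hG u v hu hv t ht p
    have h1 := (hasDerivAt_time hG ht (sph_ne_zero p)).hasDerivWithinAt (s := Ioi 0)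
    have h2 : v t p = Gt G (t, (p : E3)) := by
      rw [← hv t ht p (sph_ne_zero p), ext_sph]
    rw [h2]
    refine h1.congr (fun s hs => ?_) ?_
    · rw [← hu s hs p (sph_ne_zero p), ext_sph]
    · rw [← hu t ht p (sph_ne_zero p), ext_sph]
  induction n generalizing G u v with
  | zero => exact key hG hu hv
  | succ n ih =>
    refine ⟨key hG hu hv, fun i => ih (contDiffOn_Gi uniqueDiff_Ioi hG i)
      (ext_X_eq uniqueDiff_Ioi hG hu i) ?_⟩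
    intro t ht x hx
    rw [ext_X_eq uniqueDiff_Ioi (contDiffOn_Gt hG) hv i t ht x hx]
    exact Gt_Gi hG i ⟨ht, hx⟩

open Classical in
/-- from a jointly smooth function to a curve in `SS` -/
theorem of_joint {U : ℝ → E3 → ℝ}
    (h : ContDiffOn ℝ ∞ (fun z : ℝ × E3 => U z.1 (‖z.2‖⁻¹ • z.2)) (Ici 0 ×ˢ {x : E3 | x ≠ 0})) :
    ∃ u v : ℝ → SS, (∀ t, 0 ≤ t → ∀ p : Sph, u t p = U t p) ∧ CC (Ici 0) u ∧ CC (Ioi 0) v ∧
      CD (Ioi 0) u v := by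
  set G : ℝ × E3 → ℝ := fun z => U z.1 (‖z.2‖⁻¹ • z.2) with hGdef
  have hGo : ContDiffOn ℝ ∞ G (Ioi (0 : ℝ) ×ˢ {x : E3 | x ≠ 0}) :=
    h.mono (prod_mono Ioi_subset_Ici_self subset_rfl)
  have hmem : ∀ t : ℝ, 0 ≤ t → (fun p : Sph => U t p) ∈ SS := by
    intro t ht
    rw [mem_SS]
    refine (contDiffOn_slice h (show t ∈ Ici (0 : ℝ) from ht)).congr fun x hx => ?_
    change U t ((proj x : Sph) : E3) = U t (‖x‖⁻¹ • x)
    rw [proj_coe hx]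
  have hproj : ∀ x : E3, x ≠ 0 → ∀ s, G (s, ((proj x : Sph) : E3)) = G (s, x) := by
    intro x hx s
    change U s (‖((proj x : Sph) : E3)‖⁻¹ • ((proj x : Sph) : E3)) = U s (‖x‖⁻¹ • x)
    rw [norm_sph, inv_one, one_smul, proj_coe hx]
  have hGt : ∀ t : ℝ, 0 < t → ∀ x : E3, x ≠ 0 →
      Gt G (t, ((proj x : Sph) : E3)) = Gt G (t, x) := by
    intro t ht x hx
    have h1 := hasDerivAt_time hGo ht (sph_ne_zero (proj x))
    have h2 := hasDerivAt_time hGo ht hx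
    simp only [hproj x hx] at h1
    exact h1.unique h2
  have hmem' : ∀ t : ℝ, 0 < t → (fun p : Sph => Gt G (t, (p : E3))) ∈ SS := by
    intro t ht
    rw [mem_SS]
    refine (contDiffOn_slice (contDiffOn_Gt hGo) (show t ∈ Ioi (0 : ℝ) from ht)).congr
      fun x hx => ?_
    exact hGt t ht x hx
  let u : ℝ → SS := fun t => if ht : 0 ≤ t then ⟨fun p : Sph => U t p, hmem t ht⟩ else 0
  let v : ℝ → SS := fun t =>
    if ht : 0 < t then ⟨fun p : Sph => Gt G (t, (p : E3)), hmem' t ht⟩ else 0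
  have hu : ∀ t ∈ Ici (0 : ℝ), ∀ x : E3, x ≠ 0 → ext (u t) x = G (t, x) := by
    intro t ht x hx
    have h1 : u t = ⟨fun p : Sph => U t p, hmem t ht⟩ := dif_pos ht
    rw [h1]
    change U t ((proj x : Sph) : E3) = U t (‖x‖⁻¹ • x)
    rw [proj_coe hx]
  have hv : ∀ t ∈ Ioi (0 : ℝ), ∀ x : E3, x ≠ 0 → ext (v t) x = Gt G (t, x) := by
    intro t ht x hx
    have h1 : v t = ⟨fun p : Sph => Gt G (t, (p : E3)), hmem' t ht⟩ := dif_pos ht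
    rw [h1]
    exact hGt t ht x hx
  refine ⟨u, v, ?_, ?_, ?_, ?_⟩
  · intro t ht p
    have h1 : u t = ⟨fun p : Sph => U t p, hmem t ht⟩ := dif_pos ht
    rw [h1]
  · exact fun n => CCn_of (uniqueDiffOn_Ici 0) h hu
  · exact fun n => CCn_of uniqueDiff_Ioi (contDiffOn_Gt hGo) hv
  · exact fun n => CDn_of hGo (fun t ht => hu t (Ioi_subset_Ici_self ht)) hv

end SpecL

end Pool.Agent.helper68.S2
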