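import Mathlib
import Pool.Agent.helper44.S2R

/-!
# The right hand side of the system with cutoffs: norm bounds and Lipschitz bounds
-/

set_option autoImplicit false

open MeasureTheory Metric Set Filter
open scoped ContDiff Topology

namespace Pool.Agent.helper68.S2

theorem NN_Lap_le_phi (s : ℕ) (f : SS) : NN s (Lap f) ≤ NN (s + 2) f := by
  unfold NN
  have h1 : ∑ k ∈ Finset.range (s + 1), M k (Lap f) = ∑ k ∈ Finset.range (s + 1), M (k + 2) f :=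
    Finset.sum_congr rfl fun k _ => M_Lap k f
  have h2 : ∑ k ∈ Finset.range (s + 2 + 1), M k f
      = ∑ k ∈ Finset.range (s + 1), M (k + 2) f + (M 0 f + M 1 f) := by
    rw [show s + 2 + 1 = (s + 1) + 1 + 1 by ring, Finset.sum_range_succ', Finset.sum_range_succ']
    ring
  rw [h1, h2]
  have := M_nonneg 0 f
  have := M_nonneg 1 f
  linarith

theorem phi_NN' {χ θ : ℝ → ℝ} (hχ : Nice χ) (hθ : Nice θ) (s : ℕ) (K : ℝ) :
    ∃ B, ∀ u F : SS, NN (s + 4) u ≤ K → NN (s + 4) F ≤ K →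
      NN s (Gc χ θ u F * Lap F + Bc χ θ u F) ≤ B := by
  let ι := {q : SS × SS // NN (s + 4) q.1 ≤ K ∧ NN (s + 4) q.2 ≤ K}
  let u : ι → SS := fun i => i.1.1
  let F : ι → SS := fun i => i.1.2
  have hs : 1 ≤ s + 2 := by omega
  have hu : ∀ i, NN (s + 2) (u i) ≤ K := fun i => (NN_mono (by omega) _).trans i.2.1
  have hF : ∀ i, NN (s + 2) (F i) ≤ K := fun i => (NN_mono (by omega) _).trans i.2.2
  have hL : UB (s + 2) fun i => Lap (F i) := by
    refine UB.of_NN (by omega) (K := K) fun i => ?_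
    exact (NN_Lap_le_phi (s + 2) (F i)).trans i.2.2
  have h1 : UB (s + 2) fun i => Gc χ θ (u i) (F i) * Lap (F i) + Bc χ θ (u i) (F i) :=
    ((UB_Gc hχ hθ u F hs hu hF).mul hs hL).add (UB_Bc hχ hθ u F hF)
  obtain ⟨B, hB⟩ := h1
  refine ⟨B, fun u F hu hF => ?_⟩
  exact (NN_mono (by omega) _).trans (hB ⟨(u, F), hu, hF⟩).2

theorem phi_NN {A : ℝ} (_hA : SupB A) {χ θ : ℝ → ℝ} (hχ : Nice χ) (hθ : Nice θ) (s : ℕ) (K : ℝ) :
    ∃ B, ∀ u F : SS, NN (s + 4) u ≤ K → NN (s + 4) F ≤ K →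
      NN s (Gc χ θ u F * Lap F + Bc χ θ u F) ≤ B := phi_NN' hχ hθ s K

/-! ### Lipschitz bounds -/

/-- bounded pair of close numbers -/
def LBp (A δ a a' : ℝ) : Prop := |a| ≤ A ∧ |a'| ≤ A ∧ |a - a'| ≤ A * δ

theorem LBp.mul {A B δ a a' b b' : ℝ} (hA : 0 ≤ A) (hB : 0 ≤ B) (hδ : 0 ≤ δ)
    (h : LBp A δ a a') (h' : LBp B δ b b') : LBp (2 * A * B) δ (a * b) (a' * b') := by
  obtain ⟨h1, h2, h3⟩ := h
  obtain ⟨k1, k2, k3⟩ := h'
  have hAB : 0 ≤ A * B := mul_nonneg hA hB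
  refine ⟨?_, ?_, ?_⟩
  · rw [abs_mul]
    have := mul_le_mul h1 k1 (abs_nonneg _) hA
    linarith
  · rw [abs_mul]
    have := mul_le_mul h2 k2 (abs_nonneg _) hA
    linarith
  · have e : a * b - a' * b' = a * (b - b') + (a - a') * b' := by ring
    rw [e]
    refine (abs_add_le _ _).trans ?_
    rw [abs_mul, abs_mul]
    have e1 := mul_le_mul h1 k3 (abs_nonneg _) hA
    have e2 := mul_le_mul h3 k2 (abs_nonneg _) (mul_nonneg hA hδ)
    calc |a| * |b - b'| + |a - a'| * |b'| ≤ A * (B * δ) + A * δ * B := add_le_add e1 e2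
      _ = 2 * A * B * δ := by ring

theorem LBp.inv {B m δ b b' : ℝ} (hm : 0 < m) (hδ : 0 ≤ δ) (hB : 0 ≤ B)
    (h : LBp B δ b b') (hb : m ≤ b) (hb' : m ≤ b') :
    LBp (max (1 / m) (B / m ^ 2)) δ b⁻¹ b'⁻¹ := by
  have h0 : 0 < b := hm.trans_le hb
  have h0' : 0 < b' := hm.trans_le hb'
  refine ⟨?_, ?_, ?_⟩
  · rw [abs_of_pos (inv_pos.mpr h0)]
    refine le_trans ?_ (le_max_left _ _)
    rw [one_div]
    exact inv_anti₀ hm hb
  · rw [abs_of_pos (inv_pos.mpr h0')]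
    refine le_trans ?_ (le_max_left _ _)
    rw [one_div]
    exact inv_anti₀ hm hb'
  · have e : b⁻¹ - b'⁻¹ = -(b - b') * (b⁻¹ * b'⁻¹) := by
      field_simp
      ring
    rw [e, abs_mul, abs_neg, abs_of_pos (mul_pos (inv_pos.mpr h0) (inv_pos.mpr h0'))]
    have h1 : b⁻¹ * b'⁻¹ ≤ m⁻¹ * m⁻¹ :=
      mul_le_mul (inv_anti₀ hm hb) (inv_anti₀ hm hb') (inv_pos.mpr h0').le (inv_pos.mpr hm).le
    have h2 := mul_le_mul h.2.2 h1 (by positivity) (mul_nonneg hB hδ)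
    refine h2.trans ?_
    have h3 : B * δ * (m⁻¹ * m⁻¹) = B / m ^ 2 * δ := by
      field_simp
    rw [h3]
    exact mul_le_mul_of_nonneg_right (le_max_right _ _) hδ

theorem LBp.I {A δ : ℝ} {f f' : SS} (h : ∀ p, LBp A δ (f p) (f' p)) :
    LBp (A * (4 * Real.pi)) δ (I f) (S2.I f') := by
  refine ⟨abs_I_le fun p => (h p).1, abs_I_le fun p => (h p).2.1, ?_⟩
  rw [← map_sub]
  have := abs_I_le (f := f - f') (C := A * δ) fun p => (h p).2.2
  calc |S2.I (f - f')| ≤ A * δ * (4 * Real.pi) := this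
    _ = A * (4 * Real.pi) * δ := by ring

theorem Nice.lbp {φ : ℝ → ℝ} (h : Nice φ) : ∃ A, 0 ≤ A ∧ ∀ (x y δ : ℝ), |x - y| ≤ δ →
    LBp A δ (φ x) (φ y) := by
  obtain ⟨B, hB⟩ := h.bdd
  obtain ⟨L, hL⟩ := h.deriv.bdd
  have hL0 : 0 ≤ L := (abs_nonneg _).trans (hL 0)
  refine ⟨max B L, le_max_of_le_right hL0, fun x y δ hxy => ⟨(hB x).trans (le_max_left _ _),
    (hB y).trans (le_max_left _ _), ?_⟩⟩
  have h1 := (convex_univ (𝕜 := ℝ) (E := ℝ)).norm_image_sub_le_of_norm_deriv_le (f := φ) (C := L)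
    (fun z _ => (h.1.differentiable (by simp)).differentiableAt) (fun z _ => hL z)
    (mem_univ y) (mem_univ x)
  rw [Real.norm_eq_abs, Real.norm_eq_abs] at h1
  refine h1.trans ?_
  exact mul_le_mul (le_max_right _ _) hxy (abs_nonneg _) (hL0.trans (le_max_right _ _))

theorem phi_lip {χ θ : ℝ → ℝ} (hχ : Nice χ) (hθ : Nice θ) (K : ℝ) :
    ∃ L, 0 ≤ L ∧ ∀ (u F u' F' : SS) (δ : ℝ), (∀ p, |Lap F p| ≤ K) → (∀ p, |u p - u' p| ≤ δ) →
      (∀ p, |F p - F' p| ≤ δ) → (∀ p, |Lap F p - Lap F' p| ≤ δ) →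
      ∀ p, |(Gc χ θ u F * Lap F + Bc χ θ u F) p - (Gc χ θ u' F' * Lap F' + Bc χ θ u' F') p|
        ≤ L * δ := by
  have hpi := Real.pi_pos
  obtain ⟨a1, ha1, h1⟩ := (hθ.exp_mul 2).lbp
  obtain ⟨a2, ha2, h2⟩ := (hθ.exp_mul (-2)).lbp
  obtain ⟨a3, ha3, h3⟩ := hχ.pow_two.lbp
  obtain ⟨a4, ha4, h4⟩ := hχ.lbp
  obtain ⟨m, hm, hm'⟩ := hθ.int_exp
  -- the constants of the scalars
  set c1 : ℝ := a1 * (4 * Real.pi) with hc1
  have hc1' : 0 ≤ c1 := by positivity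
  set c2 : ℝ := 2 * a4 * a1 * (4 * Real.pi) with hc2
  have hc2' : 0 ≤ c2 := by positivity
  set c3 : ℝ := max (1 / m) (c1 / m ^ 2) with hc3
  have hc3' : 0 ≤ c3 := le_max_of_le_left (by positivity)
  set c4 : ℝ := 2 * c2 * c3 with hc4
  have hc4' : 0 ≤ c4 := by positivity
  set c5 : ℝ := 2 * (c1 / (4 * Real.pi)) * (2 * a3 * a2) with hc5
  have hc5' : 0 ≤ c5 := by positivity
  refine ⟨c5 * |K| + c5 + 2 * a3 + 2 * (2 * c4 * a4), by positivity, ?_⟩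
  intro u F u' F' δ hK hu hF hLF p
  have hδ : 0 ≤ δ := (abs_nonneg _).trans (hu p)
  -- scalar for the leading coefficient
  have s1 : LBp c1 δ (I (cmp (fun y => Real.exp (2 * θ y)) u))
      (I (cmp (fun y => Real.exp (2 * θ y)) u')) := by
    apply LBp.I
    intro q
    rw [(hθ.exp_mul 2).cmp_apply, (hθ.exp_mul 2).cmp_apply]
    exact h1 _ _ _ (hu q)
  have s1' : LBp (c1 / (4 * Real.pi)) δ
      (I (cmp (fun y => Real.exp (2 * θ y)) u) / (4 * Real.pi))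
      (I (cmp (fun y => Real.exp (2 * θ y)) u') / (4 * Real.pi)) := by
    have h4pi : (0 : ℝ) < 4 * Real.pi := by positivity
    refine ⟨?_, ?_, ?_⟩
    · rw [abs_div, abs_of_pos h4pi]
      exact div_le_div_of_nonneg_right s1.1 h4pi.le
    · rw [abs_div, abs_of_pos h4pi]
      exact div_le_div_of_nonneg_right s1.2.1 h4pi.le
    · rw [← sub_div, abs_div, abs_of_pos h4pi]
      have := div_le_div_of_nonneg_right s1.2.2 h4pi.le
      refine this.trans (le_of_eq ?_)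
      ring
  -- scalar for the lower order term
  have s2 : LBp c2 δ (I (cmp χ F * cmp (fun y => Real.exp (2 * θ y)) u))
      (I (cmp χ F' * cmp (fun y => Real.exp (2 * θ y)) u')) := by
    apply LBp.I
    intro q
    rw [ss_mul, ss_mul, hχ.cmp_apply, hχ.cmp_apply, (hθ.exp_mul 2).cmp_apply,
      (hθ.exp_mul 2).cmp_apply]
    exact LBp.mul ha4 ha1 hδ (h4 _ _ _ (hF q)) (h1 _ _ _ (hu q))
  have s3 : LBp c3 δ (I (cmp (fun y => Real.exp (2 * θ y)) u))⁻¹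
      (I (cmp (fun y => Real.exp (2 * θ y)) u'))⁻¹ :=
    LBp.inv hm hδ hc1' s1 (hm' u) (hm' u')
  have s4 : LBp c4 δ (I (cmp χ F * cmp (fun y => Real.exp (2 * θ y)) u) *
      (I (cmp (fun y => Real.exp (2 * θ y)) u))⁻¹)
      (I (cmp χ F' * cmp (fun y => Real.exp (2 * θ y)) u') *
      (I (cmp (fun y => Real.exp (2 * θ y)) u'))⁻¹) := LBp.mul hc2' hc3' hδ s2 s3
  -- pointwise quantities
  have g1 : LBp (2 * a3 * a2) δ (χ (F p) ^ 2 * Real.exp (-2 * θ (u p)))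
      (χ (F' p) ^ 2 * Real.exp (-2 * θ (u' p))) :=
    LBp.mul ha3 ha2 hδ (h3 _ _ _ (hF p)) (h2 _ _ _ (hu p))
  have g2 : LBp c5 δ (Gc χ θ u F p) (Gc χ θ u' F' p) := by
    have e : ∀ u F : SS, Gc χ θ u F p = I (cmp (fun y => Real.exp (2 * θ y)) u) / (4 * Real.pi) *
        (χ (F p) ^ 2 * Real.exp (-2 * θ (u p))) := by
      intro u F
      unfold Gc
      rw [ss_smul, ss_mul, hχ.pow_two.cmp_apply, (hθ.exp_mul (-2)).cmp_apply]
    rw [e, e]
    exact LBp.mul (by positivity) (by positivity) hδ s1' g1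
  have g3 : LBp (2 * c4 * a4) δ (I (cmp χ F * cmp (fun y => Real.exp (2 * θ y)) u) *
      (I (cmp (fun y => Real.exp (2 * θ y)) u))⁻¹ * χ (F p))
      (I (cmp χ F' * cmp (fun y => Real.exp (2 * θ y)) u') *
      (I (cmp (fun y => Real.exp (2 * θ y)) u'))⁻¹ * χ (F' p)) :=
    LBp.mul hc4' ha4 hδ s4 (h4 _ _ _ (hF p))
  have e : ∀ u F : SS, (Gc χ θ u F * Lap F + Bc χ θ u F) p = Gc χ θ u F p * Lap F p +
      (2 * χ (F p) ^ 2 - 2 * (I (cmp χ F * cmp (fun y => Real.exp (2 * θ y)) u) *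
      (I (cmp (fun y => Real.exp (2 * θ y)) u))⁻¹ * χ (F p))) := by
    intro u F
    rw [ss_add, ss_mul]
    unfold Bc
    rw [ss_sub, ss_smul, ss_smul, hχ.cmp_apply, hχ.pow_two.cmp_apply, div_eq_mul_inv]
    ring
  rw [e, e]
  set G := Gc χ θ u F p
  set G' := Gc χ θ u' F' p
  set l := Lap F p
  set l' := Lap F' p
  set x := χ (F p) ^ 2
  set x' := χ (F' p) ^ 2
  set y := I (cmp χ F * cmp (fun y => Real.exp (2 * θ y)) u) *
      (I (cmp (fun y => Real.exp (2 * θ y)) u))⁻¹ * χ (F p)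
  set y' := I (cmp χ F' * cmp (fun y => Real.exp (2 * θ y)) u') *
      (I (cmp (fun y => Real.exp (2 * θ y)) u'))⁻¹ * χ (F' p)
  have e2 : G * l + (2 * x - 2 * y) - (G' * l' + (2 * x' - 2 * y')) =
      (G - G') * l + G' * (l - l') + (2 * (x - x') - 2 * (y - y')) := by ring
  rw [e2]
  have hx : |x - x'| ≤ a3 * δ := (h3 _ _ _ (hF p)).2.2
  have hy : |y - y'| ≤ 2 * c4 * a4 * δ := g3.2.2
  have hG : |G - G'| ≤ c5 * δ := g2.2.2
  have hG' : |G'| ≤ c5 := g2.2.1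
  have hl : |l| ≤ |K| := (hK p).trans (le_abs_self K)
  have hll : |l - l'| ≤ δ := hLF p
  have b1 : |(G - G') * l| ≤ c5 * δ * |K| := by
    rw [abs_mul]
    exact mul_le_mul hG hl (abs_nonneg _) (mul_nonneg hc5' hδ)
  have b2 : |G' * (l - l')| ≤ c5 * δ := by
    rw [abs_mul]
    exact mul_le_mul hG' hll (abs_nonneg _) hc5'
  have b3 : |2 * (x - x') - 2 * (y - y')| ≤ 2 * (a3 * δ) + 2 * (2 * c4 * a4 * δ) := by
    refine (abs_sub _ _).trans ?_
    rw [abs_mul, abs_mul, abs_two]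
    linarith
  refine (abs_add_le _ _).trans ?_
  have b4 := abs_add_le ((G - G') * l) (G' * (l - l'))
  calc |(G - G') * l + G' * (l - l')| + |2 * (x - x') - 2 * (y - y')|
      ≤ (c5 * δ * |K| + c5 * δ) + (2 * (a3 * δ) + 2 * (2 * c4 * a4 * δ)) := by linarith
    _ = (c5 * |K| + c5 + 2 * a3 + 2 * (2 * c4 * a4)) * δ := by ring

end Pool.Agent.helper68.S2
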